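import Pool.Agent.Helper44.MT.Gen
import Pool.Agent.Helper44.MT.Vec
import Pool.Agent.Helper44.MT.Weight

/-!
# From characteristic zero to characteristic `r`
-/

set_option autoImplicit false

namespace Pool.Agent.Helper44.MT

open MvPolynomial Matrix

section symbol

variable {N k : ℕ} {A : Type*} [AddCommGroup A] {f : Cochain N A}

theorem IsSymbol.self (hf : IsSymbol k f) (x : Fin 2 → ℤ) (H : Matrix (Fin 2) (Fin 2) (ZMod N))
    (P : MvPolynomial (Fin 2) ℤ) : f x x H P = 0 := by
  by_cases hx : x = 0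
  · rw [hx, hf.zero_left]
  · have := hf.trans x x x hx hx hx H P
    simpa using this

theorem IsSymbol.anti (hf : IsSymbol k f) (x y : Fin 2 → ℤ)
    (H : Matrix (Fin 2) (Fin 2) (ZMod N)) (P : MvPolynomial (Fin 2) ℤ) :
    f y x H P = -f x y H P := by
  by_cases hx : x = 0
  · rw [hx, hf.zero_left, hf.zero_right, neg_zero]
  · by_cases hy : y = 0
    · rw [hy, hf.zero_left, hf.zero_right, neg_zero]
    · have := hf.trans x y x hx hy hx H P
      rw [hf.self] at this
      exact (neg_eq_of_add_eq_zero_right this).symm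

theorem IsSymbol.scale' (hf : IsSymbol k f) (n : ℤ) (hn : n ≠ 0) (x y : Fin 2 → ℤ)
    (H : Matrix (Fin 2) (Fin 2) (ZMod N)) (P : MvPolynomial (Fin 2) ℤ) :
    f x (n • y) H P = f x y H P := by
  rw [hf.anti (n • y) x, hf.scale n hn, hf.anti x y, neg_neg]

/-- the finitely many values which generate all -/
def gens (k : ℕ) (f : Cochain N A) : Set A :=
  (fun q : Matrix (Fin 2) (Fin 2) (ZMod N) × (Fin 2 →₀ ℕ) =>
    f ![1, 0] ![0, 1] q.1 (monomial q.2 1)) '' {q | q.2.degree + 2 = k}

theorem gens_finite [NeZero N] (k : ℕ) (f : Cochain N A) : (gens k f).Finite := by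
  apply Set.Finite.image
  have h1 : {q : Matrix (Fin 2) (Fin 2) (ZMod N) × (Fin 2 →₀ ℕ) | q.2.degree + 2 = k} ⊆
      (Set.univ : Set (Matrix (Fin 2) (Fin 2) (ZMod N))) ×ˢ
        ({m : Fin 2 →₀ ℕ | m.degree = k - 2} : Set (Fin 2 →₀ ℕ)) := by
    rintro ⟨H, m⟩ h
    simp only [Set.mem_setOf_eq] at h
    refine ⟨Set.mem_univ _, ?_⟩
    simp only [Set.mem_setOf_eq]
    omega
  refine Set.Finite.subset (Set.Finite.prod Set.finite_univ ?_) h1
  have h2 : {m : Fin 2 →₀ ℕ | m.degree = k - 2} ⊆
      (fun v : Fin (k - 1) × Fin (k - 1) =>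
        (Finsupp.single 0 (v.1 : ℕ) + Finsupp.single 1 (v.2 : ℕ) : Fin 2 →₀ ℕ)) '' Set.univ ∪
      {0} := by
    intro m hm
    simp only [Set.mem_setOf_eq] at hm
    have h3 : m 0 + m 1 = k - 2 := by
      rw [← hm, Finsupp.degree_eq_sum, Fin.sum_univ_two]
    by_cases hk : k - 2 = 0
    · right
      rw [Set.mem_singleton_iff]
      ext i
      fin_cases i
      · simp; omega
      · simp; omega
    · left
      refine ⟨(⟨m 0, by omega⟩, ⟨m 1, by omega⟩), Set.mem_univ _, ?_⟩
      ext i
      fin_cases i <;> simp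
  exact Set.Finite.subset ((Set.toFinite _).union (Set.finite_singleton _)) h2

/-- the values at the standard cusps -/
theorem mem_std (hf : IsSymbol k f) (H : Matrix (Fin 2) (Fin 2) (ZMod N))
    (P : MvPolynomial (Fin 2) ℤ) :
    f ![1, 0] ![0, 1] H P ∈ Submodule.span ℤ (gens k f) := by
  let φ : MvPolynomial (Fin 2) ℤ →+ A := AddMonoidHom.mk' (f ![1, 0] ![0, 1] H) (hf.poly _ _ H)
  have h1 : ∀ m : Fin 2 →₀ ℕ, ∀ c : ℤ, φ (monomial m c) ∈ Submodule.span ℤ (gens k f) := by
    intro m c
    have h2 : (monomial m c : MvPolynomial (Fin 2) ℤ) = c • monomial m 1 := by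
      rw [smul_monomial, smul_eq_mul, mul_one]
    rw [h2, map_zsmul]
    apply Submodule.smul_mem
    by_cases hm : m.degree + 2 = k
    · exact Submodule.subset_span ⟨(H, m), hm, rfl⟩
    · have h3 : φ (monomial m 1) = 0 :=
        hf.weight _ _ _ _ m.degree (isHomogeneous_monomial 1 rfl) hm
      rw [h3]
      exact Submodule.zero_mem _
  change φ P ∈ _
  induction P using MvPolynomial.induction_on' with
  | monomial m c => exact h1 m c
  | add P Q hP hQ =>
    rw [map_add]
    exact Submodule.add_mem _ hP hQ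

/-- all values -/
theorem mem_gens (hf : IsSymbol k f) (x y : Fin 2 → ℤ) (H : Matrix (Fin 2) (Fin 2) (ZMod N))
    (P : MvPolynomial (Fin 2) ℤ) : f x y H P ∈ Submodule.span ℤ (gens k f) := by
  by_cases hx : x = 0
  · rw [hx, hf.zero_left]
    exact Submodule.zero_mem _
  by_cases hy : y = 0
  · rw [hy, hf.zero_right]
    exact Submodule.zero_mem _
  obtain ⟨n, hn, x', hx', rfl⟩ := exists_coprime x hx
  obtain ⟨n', hn', y', hy', rfl⟩ := exists_coprime y hy
  rw [hf.scale n hn, hf.scale' n' hn']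
  refine gen (fun x y => ∀ H P, f x y H P ∈ Submodule.span ℤ (gens k f)) ?_ ?_ ?_ ?_ x' y' hx' hy'
    H P
  · intro x y h H P
    rw [hf.anti x y]
    exact Submodule.neg_mem _ (h H P)
  · intro x y z hx hy hz h1 h2 H P
    rw [← hf.trans x y z (ne_zero_of_coprime hx) (ne_zero_of_coprime hy) (ne_zero_of_coprime hz)]
    exact Submodule.add_mem _ (h1 H P) (h2 H P)
  · intro x hx H P
    have h1 : -x = (-1 : ℤ) • x := by simp
    rw [h1, hf.scale' (-1) (by norm_num), hf.self]
    exact Submodule.zero_mem _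
  · intro x y hxy H P
    set g : Matrix (Fin 2) (Fin 2) ℤ := !![y 1, -y 0; -x 1, x 0] with hg
    have hdet : g.det = 1 := by
      rw [hg, det_fin_two_of, ← hxy]
      ring
    have h1 := congrFun (congrFun (congrFun (congrFun (hf.inv g hdet) x) y) H) P
    have h2 : g *ᵥ x = ![1, 0] := by
      rw [hg]
      ext i
      fin_cases i
      · simp [Matrix.mulVec, dotProduct, Fin.sum_univ_two]
        linarith
      · simp [Matrix.mulVec, dotProduct, Fin.sum_univ_two]
        ring
    have h3 : g *ᵥ y = ![0, 1] := by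
      rw [hg]
      ext i
      fin_cases i
      · simp [Matrix.mulVec, dotProduct, Fin.sum_univ_two]
        ring
      · simp [Matrix.mulVec, dotProduct, Fin.sum_univ_two]
        linarith
    rw [← h1, act, h2, h3]
    exact mem_std hf _ _

end symbol

/-- two commuting operators have a common eigenvector -/
theorem exists_common {A D : Type*} [Field A] [IsAlgClosed A] [AddCommGroup D] [Module A D]
    [FiniteDimensional A D] [Nontrivial D] (S S' : Module.End A D) (h : Commute S S') :
    ∃ (v : D) (a c : A), v ≠ 0 ∧ S v = a • v ∧ S' v = c • v := by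
  obtain ⟨a, ha⟩ := Module.End.exists_eigenvalue S
  have hne : Nontrivial (S.eigenspace a) := by
    obtain ⟨v, hv⟩ := ha.exists_hasEigenvector
    exact ⟨⟨⟨v, hv.1⟩, 0, fun h0 => hv.2 (congrArg Subtype.val h0)⟩⟩
  have hstab : ∀ v ∈ S.eigenspace a, S' v ∈ S.eigenspace a := by
    intro v hv
    rw [Module.End.mem_eigenspace_iff] at hv ⊢
    have h1 : S (S' v) = S' (S v) := DFunLike.congr_fun h v
    rw [h1, hv, map_smul]
  obtain ⟨c, hc⟩ := Module.End.exists_eigenvalue (S'.restrict hstab)
  obtain ⟨v, hv⟩ := hc.exists_hasEigenvector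
  refine ⟨v, a, c, fun h0 => hv.2 (Subtype.ext h0), Module.End.mem_eigenspace_iff.1 v.2, ?_⟩
  have h1 := Module.End.mem_eigenspace_iff.1 hv.1
  exact congrArg Subtype.val h1

/-- block A: from characteristic 0 to characteristic `r` -/
theorem lemA {r : ℕ} [Fact r.Prime] {K : Type*} [Field K] [CharZero K] {k N p : ℕ} [NeZero N]
    (h : Regular (AlgebraicClosure (ZMod r)) k N p) : Regular K k N p := by
  intro f a c hf hT hR hac
  by_contra hf0
  set Λ : Submodule ℤ K := Submodule.span ℤ (gens k f) with hΛ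
  have hval : ∀ x y H P, f x y H P ∈ Λ := fun x y H P => mem_gens hf x y H P
  -- multiplication by an element which preserves the values
  have hstab : ∀ b : K, (∀ x y H P, b * f x y H P ∈ Λ) → ∀ v ∈ Λ, b * v ∈ Λ := by
    intro b hb v hv
    induction hv using Submodule.span_induction with
    | mem v hv =>
      obtain ⟨q, -, rfl⟩ := hv
      exact hb _ _ _ _
    | zero =>
      rw [mul_zero]
      exact Submodule.zero_mem _
    | add v w _ _ hv hw =>
      rw [mul_add]
      exact Submodule.add_mem _ hv hw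
    | smul n v _ hv =>
      rw [mul_smul_comm]
      exact Submodule.smul_mem _ _ hv
  have hTval : ∀ x y H P, a * f x y H P = f (!![(p : ℤ), 0; 0, 1] *ᵥ x) (!![(p : ℤ), 0; 0, 1] *ᵥ y)
      ((!![(p : ℤ), 0; 0, 1]).map (Int.cast : ℤ → ZMod N) * H)
        (subst (!![(p : ℤ), 0; 0, 1]).adjugate P) +
      ∑ i ∈ Finset.range p, f (!![1, (i : ℤ); 0, (p : ℤ)] *ᵥ x) (!![1, (i : ℤ); 0, (p : ℤ)] *ᵥ y)
      ((!![1, (i : ℤ); 0, (p : ℤ)]).map (Int.cast : ℤ → ZMod N) * H)
        (subst (!![1, (i : ℤ); 0, (p : ℤ)]).adjugate P) := by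
    intro x y H P
    have h1 := congrFun (congrFun (congrFun (congrFun hT x) y) H) P
    have h2 : (a • f) x y H P = a * f x y H P := rfl
    rw [← h2, ← h1, T]
    simp only [Pi.add_apply, Finset.sum_apply, act]
  have hRval : ∀ x y H P, c * f x y H P = f (!![(p : ℤ), 0; 0, (p : ℤ)] *ᵥ x)
      (!![(p : ℤ), 0; 0, (p : ℤ)] *ᵥ y)
      ((!![(p : ℤ), 0; 0, (p : ℤ)]).map (Int.cast : ℤ → ZMod N) * H)
        (subst (!![(p : ℤ), 0; 0, (p : ℤ)]).adjugate P) := by
    intro x y H P
    have h1 := congrFun (congrFun (congrFun (congrFun hR x) y) H) P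
    have h2 : (c • f) x y H P = c * f x y H P := rfl
    rw [← h2, ← h1, R, act]
  have ha : ∀ v ∈ Λ, a * v ∈ Λ := hstab a fun x y H P => by
    rw [hTval]
    exact Submodule.add_mem _ (hval _ _ _ _) (Submodule.sum_mem _ fun i _ => hval _ _ _ _)
  have hc : ∀ v ∈ Λ, c * v ∈ Λ := hstab c fun x y H P => by
    rw [hRval]
    exact hval _ _ _ _
  -- the lattice
  have hfin : Module.Finite ℤ Λ := by
    rw [Module.Finite.iff_fg, hΛ]
    exact Submodule.fg_span (gens_finite k f)
  have htf : Module.IsTorsionFree ℤ Λ := inferInstance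
  have hfree : Module.Free ℤ Λ := inferInstance
  have hΛ0 : Nontrivial Λ := by
    by_contra hcon
    rw [not_nontrivial_iff_subsingleton] at hcon
    apply hf0
    funext x y H P
    have h1 : (⟨f x y H P, hval x y H P⟩ : Λ) = 0 := Subsingleton.elim _ _
    exact congrArg Subtype.val h1
  let A := AlgebraicClosure (ZMod r)
  let b := Module.Free.chooseBasis ℤ Λ
  let e : (Module.Free.ChooseBasisIndex ℤ Λ → A) ≃ₗ[A] (Λ →ₗ[ℤ] A) := b.constr A
  have hne : Nonempty (Module.Free.ChooseBasisIndex ℤ Λ) := b.index_nonempty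
  have : FiniteDimensional A (Λ →ₗ[ℤ] A) := Module.Finite.equiv e
  have : Nontrivial (Λ →ₗ[ℤ] A) := e.symm.toEquiv.nontrivial
  let ma : Λ →ₗ[ℤ] Λ :=
    { toFun := fun v => ⟨a * v, ha v v.2⟩
      map_add' := fun v w => Subtype.ext (mul_add a (v : K) (w : K))
      map_smul' := fun n v => Subtype.ext (mul_smul_comm n a (v : K)) }
  let mc : Λ →ₗ[ℤ] Λ :=
    { toFun := fun v => ⟨c * v, hc v v.2⟩
      map_add' := fun v w => Subtype.ext (mul_add c (v : K) (w : K))
      map_smul' := fun n v => Subtype.ext (mul_smul_comm n c (v : K)) }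
  let pa : Module.End A (Λ →ₗ[ℤ] A) :=
    { toFun := fun ξ => ξ.comp ma
      map_add' := fun ξ η => rfl
      map_smul' := fun t ξ => rfl }
  let pc : Module.End A (Λ →ₗ[ℤ] A) :=
    { toFun := fun ξ => ξ.comp mc
      map_add' := fun ξ η => rfl
      map_smul' := fun t ξ => rfl }
  have hcomm : Commute pa pc := by
    refine LinearMap.ext fun ξ => LinearMap.ext fun v => ?_
    change ξ (mc (ma v)) = ξ (ma (mc v))
    congr 1
    apply Subtype.ext
    change c * (a * (v : K)) = a * (c * (v : K))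
    ring
  obtain ⟨ξ, a', c', hξ, hξa, hξc⟩ := exists_common pa pc hcomm
  have hξa' : ∀ v : Λ, ξ (ma v) = a' * ξ v := fun v => DFunLike.congr_fun hξa v
  have hξc' : ∀ v : Λ, ξ (mc v) = c' * ξ v := fun v => DFunLike.congr_fun hξc v
  let F : Cochain N A := fun x y H P => ξ ⟨f x y H P, hval x y H P⟩
  have hF : ∀ x y H P, F x y H P = ξ ⟨f x y H P, hval x y H P⟩ := fun _ _ _ _ => rfl
  have hzero : ∀ x y H P, f x y H P = 0 → F x y H P = 0 := by
    intro x y H P h0
    have h1 : (⟨f x y H P, hval x y H P⟩ : Λ) = 0 := Subtype.ext h0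
    rw [hF, h1, map_zero]
  have heq : ∀ x y H P x' y' H' P', f x y H P = f x' y' H' P' → F x y H P = F x' y' H' P' := by
    intro x y H P x' y' H' P' h0
    rw [hF, hF]
    congr 1
    exact Subtype.ext h0
  have hsym : IsSymbol k F :=
    { zero_left := fun y H P => hzero _ _ _ _ (hf.zero_left y H P)
      zero_right := fun x H P => hzero _ _ _ _ (hf.zero_right x H P)
      poly := fun x y H P Q => by
        rw [hF, hF, hF, ← map_add]
        congr 1
        exact Subtype.ext (hf.poly x y H P Q)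
      weight := fun x y H P i hP hi => hzero _ _ _ _ (hf.weight x y H P i hP hi)
      trans := fun x y z hx hy hz H P => by
        rw [hF, hF, hF, ← map_add]
        congr 1
        exact Subtype.ext (hf.trans x y z hx hy hz H P)
      scale := fun n hn x y H P => heq _ _ _ _ _ _ _ _ (hf.scale n hn x y H P)
      inv := fun g hg => by
        funext x y H P
        exact heq _ _ _ _ _ _ _ _
          (congrFun (congrFun (congrFun (congrFun (hf.inv g hg) x) y) H) P) }
  have hTF : T p F = a' • F := by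
    funext x y H P
    have h1 : (a' • F) x y H P = a' * F x y H P := rfl
    rw [h1, hF, ← hξa', T]
    simp only [Pi.add_apply, Finset.sum_apply, act, hF]
    rw [← map_sum, ← map_add]
    congr 1
    apply Subtype.ext
    change _ = a * f x y H P
    rw [hTval]
    simp
  have hRF : R p F = c' • F := by
    funext x y H P
    have h1 : (c' • F) x y H P = c' * F x y H P := rfl
    rw [h1, hF, ← hξc', R, act, hF]
    congr 1
    apply Subtype.ext
    change _ = c * f x y H P
    rw [hRval]
  have hac' : a' ^ 2 = 4 * p * c' := by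
    obtain ⟨v, hv⟩ : ∃ v, ξ v ≠ 0 := by
      by_contra hcon
      push Not at hcon
      exact hξ (LinearMap.ext hcon)
    have h1 : ma (ma v) = (4 * p : ℕ) • mc v := by
      apply Subtype.ext
      change a * (a * (v : K)) = (((4 * p : ℕ) • mc v : Λ) : K)
      rw [Submodule.coe_smul_of_tower, nsmul_eq_mul]
      change a * (a * (v : K)) = ((4 * p : ℕ) : K) * (c * (v : K))
      push_cast
      linear_combination (v : K) * hac
    have h2 := congrArg ξ h1
    rw [hξa', hξa', map_nsmul, hξc', nsmul_eq_mul] at h2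
    apply mul_right_cancel₀ hv
    push_cast at h2
    linear_combination h2
  have h0 := h F a' c' hsym hTF hRF hac'
  apply hξ
  refine LinearMap.ext fun v => ?_
  obtain ⟨v, hv⟩ := v
  rw [LinearMap.zero_apply]
  induction hv using Submodule.span_induction with
  | mem v hv' =>
    obtain ⟨q, -, rfl⟩ := hv'
    exact congrFun (congrFun (congrFun (congrFun h0 _) _) _) _
  | zero => exact map_zero ξ
  | add v w hv hw h1 h2 =>
    have h3 : (⟨v + w, Submodule.add_mem _ hv hw⟩ : Λ) = ⟨v, hv⟩ + ⟨w, hw⟩ := rfl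
    rw [h3, map_add, h1, h2, add_zero]
  | smul n v hv h1 =>
    have h3 : (⟨n • v, Submodule.smul_mem _ n hv⟩ : Λ) = n • ⟨v, hv⟩ := rfl
    rw [h3, map_smul, h1, smul_zero]

end Pool.Agent.Helper44.MT
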